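import Pool.Agent.helper36.MP.SpecN

set_option autoImplicit false

open Complex Metric Set Filter Topology MeasureTheory

noncomputable section

namespace MPS

theorem MCV_det (A : ℂ →L[ℂ] ℂ) : (A.restrictScalars ℝ).det = ‖A 1‖ ^ 2 := by
  have h1 : (A.restrictScalars ℝ).det = LinearMap.det ((A : ℂ →ₗ[ℂ] ℂ).restrictScalars ℝ) := rfl
  rw [h1, LinearMap.det_restrictScalars, Algebra.norm_complex_apply, LinearMap.det_ring,
    Complex.sq_norm]
  rfl

theorem MCV_prim {n : ℕ} (hn : 1 ≤ n) : IsPrimitiveRoot (om n) n :=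
  Complex.isPrimitiveRoot_exp n (by omega)

theorem MCV_rtpow {n : ℕ} (hn : 1 ≤ n) (z : ℂ) : rt n z ^ n = z := by
  rw [rt, one_div]
  exact Complex.cpow_nat_inv_pow z (by omega)

/-- the branches. -/
def MCV_g (n : ℕ) (c : ℂ) (j : ℕ) (z : ℂ) : ℂ := om n ^ j * rt n (z - c)

theorem MCV_gpow {n : ℕ} (hn : 1 ≤ n) (c : ℂ) (j : ℕ) (z : ℂ) : MCV_g n c j z ^ n = z - c := by
  rw [MCV_g, mul_pow, MCV_rtpow hn, ← pow_mul, mul_comm j n, pow_mul, (MCV_prim hn).pow_eq_one,
    one_pow, one_mul]

theorem MCV_hasDeriv {n : ℕ} (hn : 1 ≤ n) (c : ℂ) (j : ℕ) (z : ℂ) (hz : z - c ∈ slitPlane) :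
    HasDerivAt (MCV_g n c j) (1 / fd n (MCV_g n c j z)) z := by
  have h1 : HasDerivAt (fun z : ℂ => z - c) 1 z := (hasDerivAt_id z).sub_const c
  have h2 := (h1.cpow_const (c := (1 : ℂ) / n) hz).const_mul (om n ^ j)
  have h3 : HasDerivAt (MCV_g n c j) (om n ^ j * ((1 : ℂ) / n * (z - c) ^ ((1 : ℂ) / n - 1) * 1)) z := h2
  have h4 := h3.pow n
  have h5 : (MCV_g n c j) ^ n = fun z => z - c := by
    funext w
    rw [Pi.pow_apply, MCV_gpow hn]
  rw [h5] at h4
  have h6 := h4.unique h1
  set d := om n ^ j * ((1 : ℂ) / n * (z - c) ^ ((1 : ℂ) / n - 1) * 1) with hd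
  have h7 : fd n (MCV_g n c j z) * d = 1 := by
    rw [fd]
    exact h6
  have h8 : fd n (MCV_g n c j z) ≠ 0 := left_ne_zero_of_mul_eq_one h7
  have h9 : 1 / fd n (MCV_g n c j z) = d := by
    field_simp
    exact h7.symm
  rw [h9]
  exact h3

theorem MCV_span_null (v : ℂ) : volume ((Submodule.span ℝ {v} : Submodule ℝ ℂ) : Set ℂ) = 0 := by
  apply Measure.addHaar_submodule
  intro h
  have h1 : Module.finrank ℝ (Submodule.span ℝ {v} : Submodule ℝ ℂ) ≤ 1 := by
    have := finrank_span_le_card (R := ℝ) ({v} : Set ℂ)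
    simpa using this
  rw [h, finrank_top, Complex.finrank_real_complex] at h1
  omega

theorem MCV_slit_null : volume (slitPlaneᶜ : Set ℂ) = 0 := by
  apply measure_mono_null _ (MCV_span_null 1)
  intro z hz
  rw [mem_compl_iff, Complex.mem_slitPlane_iff] at hz
  push Not at hz
  rw [SetLike.mem_coe, Submodule.mem_span_singleton]
  refine ⟨z.re, ?_⟩
  apply Complex.ext <;> simp [hz.2]

theorem MCV_slit_null' (c : ℂ) : volume {z : ℂ | z - c ∈ slitPlane}ᶜ = 0 := by
  have h := (measurePreserving_sub_right (volume : Measure ℂ) c).measure_preimage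
    (s := (slitPlaneᶜ : Set ℂ)) Complex.isOpen_slitPlane.measurableSet.compl.nullMeasurableSet
  rw [MCV_slit_null] at h
  exact h

theorem MCV_pre_null {n : ℕ} (hn : 1 ≤ n) : volume {y : ℂ | y ^ n ∈ slitPlane}ᶜ = 0 := by
  have : NeZero n := ⟨by omega⟩
  have hn0 : (n : ℂ) ≠ 0 := by exact_mod_cast (by omega : n ≠ 0)
  set η : ℂ := Complex.exp (Real.pi * I / n) with hη
  have hηn : η ^ n = -1 := by
    rw [hη, ← Complex.exp_nat_mul, mul_div_cancel₀ _ hn0, Complex.exp_pi_mul_I]
  have hsub : {y : ℂ | y ^ n ∈ slitPlane}ᶜ ⊆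
      ⋃ j : ℕ, ((Submodule.span ℝ {η * om n ^ j} : Submodule ℝ ℂ) : Set ℂ) := by
    intro y hy
    rw [mem_compl_iff, mem_ofPred_eq, Complex.mem_slitPlane_iff] at hy
    push Not at hy
    obtain ⟨h1, h2⟩ := hy
    rw [mem_iUnion]
    by_cases hy0 : y = 0
    · exact ⟨0, by rw [hy0]; exact Submodule.zero_mem _⟩
    · set r : ℝ := -(y ^ n).re with hr
      have hr0 : 0 ≤ r := by rw [hr]; linarith
      set t : ℝ := r ^ ((1 : ℝ) / n) with ht
      have htn : t ^ n = r := by
        rw [ht, one_div]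
        exact Real.rpow_inv_natCast_pow hr0 (by omega)
      have hyn : y ^ n = -(r : ℂ) := by
        apply Complex.ext
        · simp [hr]
        · simp [h2]
      have htη : ((t : ℂ) * η) ^ n = y ^ n := by
        rw [mul_pow, hηn, hyn, ← htn]
        push_cast
        ring
      have hne : (t : ℂ) * η ≠ 0 := by
        intro h
        rw [h, zero_pow (by omega)] at htη
        exact hy0 (pow_eq_zero_iff (by omega) |>.1 htη.symm)
      have h3 : (y / (t * η)) ^ n = 1 := by
        rw [div_pow, htη]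
        exact div_self (pow_ne_zero _ hy0)
      obtain ⟨j, -, hj⟩ := (MCV_prim hn).eq_pow_of_pow_eq_one h3
      refine ⟨j, ?_⟩
      rw [SetLike.mem_coe, Submodule.mem_span_singleton]
      refine ⟨t, ?_⟩
      rw [hj, Complex.real_smul, ← mul_assoc, mul_div_cancel₀ _ hne]
  exact measure_mono_null hsub (measure_iUnion_null fun j => MCV_span_null _)

theorem MCV_g_meas (n : ℕ) (c : ℂ) (j : ℕ) : Measurable (MCV_g n c j) := by
  unfold MCV_g rt
  fun_prop

theorem MCV_fd_meas (n : ℕ) : Measurable (fd n) := by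
  unfold fd
  fun_prop

theorem MCV_one {n : ℕ} (hn : 1 ≤ n) (c : ℂ) (j : ℕ) (F : ℂ → ENNReal) (K : Set ℂ)
    (hK : MeasurableSet K) :
    ∫⁻ z in K, F (MCV_g n c j z) / ENNReal.ofReal (‖fd n (MCV_g n c j z)‖ ^ 2) =
      ∫⁻ y in MCV_g n c j '' (K ∩ {z | z - c ∈ slitPlane}), F y := by
  set S : Set ℂ := {z | z - c ∈ slitPlane} with hS
  have hSo : IsOpen S := Complex.isOpen_slitPlane.preimage (by fun_prop)
  have hinj : InjOn (MCV_g n c j) (K ∩ S) := by
    intro z _ z' _ h
    have h1 := MCV_gpow hn c j z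
    have h2 := MCV_gpow hn c j z'
    rw [h, h2] at h1
    simpa using h1.symm
  rw [lintegral_image_eq_lintegral_abs_det_fderiv_mul volume (hK.inter hSo.measurableSet)
    (f' := fun z => (ContinuousLinearMap.toSpanSingleton ℂ
      (1 / fd n (MCV_g n c j z)) : ℂ →L[ℂ] ℂ).restrictScalars ℝ) _ hinj]
  · have h1 : (volume : Measure ℂ).restrict K = (volume : Measure ℂ).restrict (K ∩ S) := by
      apply Measure.restrict_congr_set
      have h2 : ∀ᵐ z ∂(volume : Measure ℂ), z ∈ S := by
        rw [ae_iff]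
        exact MCV_slit_null' c
      filter_upwards [h2] with z hz
      apply propext
      exact ⟨fun h => ⟨h, hz⟩, fun h => h.1⟩
    rw [h1]
    apply setLIntegral_congr_fun (hK.inter hSo.measurableSet)
    intro z hz
    have hz2 : fd n (MCV_g n c j z) ≠ 0 := by
      rw [fd]
      refine mul_ne_zero (by exact_mod_cast (by omega : n ≠ 0)) (pow_ne_zero _ ?_)
      intro h0
      have := MCV_gpow hn c j z
      rw [h0, zero_pow (by omega)] at this
      have h3 : z - c ∈ slitPlane := hz.2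
      rw [← this] at h3
      exact Complex.zero_notMem_slitPlane h3
    simp only
    rw [MCV_det, ContinuousLinearMap.toSpanSingleton_apply, one_smul, norm_div, norm_one,
      abs_of_nonneg (by positivity), div_pow, one_pow, one_div,
      ENNReal.ofReal_inv_of_pos (by positivity), mul_comm, ENNReal.div_eq_inv_mul, mul_comm]
  · intro z hz
    have h := MCV_hasDeriv hn c j z hz.2
    exact (h.hasFDerivAt.restrictScalars ℝ).hasFDerivWithinAt

theorem MCV : MCV_stmt := by
  intro n c hn F K hF hK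
  have : NeZero n := ⟨by omega⟩
  set S : Set ℂ := {z | z - c ∈ slitPlane} with hS
  have hSo : IsOpen S := Complex.isOpen_slitPlane.preimage (by fun_prop)
  have himg : ∀ j, MCV_g n c j '' (K ∩ S) =
      {y : ℂ | y ^ n + c ∈ K ∩ S ∧ y = MCV_g n c j (y ^ n + c)} := by
    intro j
    ext y
    constructor
    · rintro ⟨z, hz, rfl⟩
      have h1 : MCV_g n c j z ^ n + c = z := by rw [MCV_gpow hn]; ring
      rw [mem_ofPred_eq, h1]
      exact ⟨hz, rfl⟩
    · rintro ⟨h1, h2⟩
      exact ⟨_, h1, h2.symm⟩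
  have hmeas : ∀ j, MeasurableSet (MCV_g n c j '' (K ∩ S)) := by
    intro j
    rw [himg j]
    have hf : Measurable (fun y : ℂ => y ^ n + c) := by fun_prop
    exact (hf (hK.inter hSo.measurableSet)).inter
      (measurableSet_eq_fun measurable_id ((MCV_g_meas n c j).comp hf))
  have hdisj : Set.PairwiseDisjoint (↑(Finset.range n)) (fun j => MCV_g n c j '' (K ∩ S)) := by
    intro i hi j hj hij
    rw [Function.onFun, Set.disjoint_left]
    intro y hy1 hy2
    rw [himg] at hy1 hy2
    have h1 := hy1.2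
    have h2 := hy2.2
    rw [h1] at h2
    have hz : (y ^ n + c) - c ≠ 0 := by
      intro h0
      have h3 : (y ^ n + c) - c ∈ slitPlane := hy1.1.2
      rw [h0] at h3
      exact Complex.zero_notMem_slitPlane h3
    have hr : rt n ((y ^ n + c) - c) ≠ 0 := by
      intro h0
      have := MCV_rtpow hn ((y ^ n + c) - c)
      rw [h0, zero_pow (by omega)] at this
      exact hz this.symm
    have h3 : MCV_g n c i (y ^ n + c) = MCV_g n c j (y ^ n + c) := by
      rw [← h1]; exact hy2.2
    unfold MCV_g at h3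
    have h4 := mul_right_cancel₀ hr h3
    exact hij ((MCV_prim hn).pow_inj (by simpa using hi) (by simpa using hj) h4)
  have hunion : ⋃ j ∈ Finset.range n, MCV_g n c j '' (K ∩ S) = {y : ℂ | y ^ n + c ∈ K ∩ S} := by
    ext y
    simp only [mem_iUnion, himg, mem_ofPred_eq]
    constructor
    · rintro ⟨j, -, h, -⟩
      exact h
    · intro h
      have hz : y ^ n ∈ slitPlane := by
        have h3 : (y ^ n + c) - c ∈ slitPlane := h.2
        rwa [add_sub_cancel_right] at h3
      have hr : rt n (y ^ n) ≠ 0 := by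
        intro h0
        have := MCV_rtpow hn (y ^ n)
        rw [h0, zero_pow (by omega)] at this
        rw [← this] at hz
        exact Complex.zero_notMem_slitPlane hz
      have h3 : (y / rt n (y ^ n)) ^ n = 1 := by
        rw [div_pow, MCV_rtpow hn]
        exact div_self (Complex.slitPlane_ne_zero hz)
      obtain ⟨j, hj, hj2⟩ := (MCV_prim hn).eq_pow_of_pow_eq_one h3
      refine ⟨j, by simpa using hj, h, ?_⟩
      rw [MCV_g, add_sub_cancel_right, hj2, div_mul_cancel₀ _ hr]
  have hpre : (volume : Measure ℂ).restrict {y : ℂ | y ^ n + c ∈ K} =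
      (volume : Measure ℂ).restrict {y : ℂ | y ^ n + c ∈ K ∩ S} := by
    apply Measure.restrict_congr_set
    have h2 : ∀ᵐ y ∂(volume : Measure ℂ), y ^ n ∈ slitPlane := by
      rw [ae_iff]
      exact MCV_pre_null hn
    filter_upwards [h2] with y hy
    apply propext
    refine ⟨fun h => ⟨h, ?_⟩, fun h => h.1⟩
    change y ^ n + c - c ∈ slitPlane
    rwa [add_sub_cancel_right]
  rw [hpre, ← hunion, lintegral_biUnion_finset hdisj (fun j _ => hmeas j)]
  rw [lintegral_finsetSum]
  · apply Finset.sum_congr rfl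
    intro j _
    exact MCV_one hn c j F K hK
  · intro j _
    exact (hF.comp (MCV_g_meas n c j)).div
      (ENNReal.measurable_ofReal.comp (((MCV_fd_meas n).comp (MCV_g_meas n c j)).norm.pow_const 2))

end MPS
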